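import Pool.Agent.Lib.MP_59d845_nt.Main2

/-!
# Odd `m = p + 2 q` with `p`, `q` almost prime and `q` a quadratic residue modulo `m` (MP_59d845_nt)
-/

set_option autoImplicit false

namespace Pool.Agent.Results.MP_59d845_nt.AlmostPrimes

open ArithmeticFunction Pool.Agent.MP_59d845_nt

/-- The `q` of the representations `m = p + 2 q` in positive integers such that `q` is coprime to `m`,
congruent to a square modulo `m`, not itself a perfect square, and every prime factor `l` of `p` and of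
`q` satisfies `m < l ^ 3144`. -/
def R (m : ℕ) : Set ℕ :=
  {q | ∃ p : ℕ, 0 < p ∧ 0 < q ∧ m = p + 2 * q ∧ q.Coprime m ∧ (∃ r : ℕ, r ^ 2 ≡ q [MOD m]) ∧
    ¬ IsSquare q ∧ ∀ l : ℕ, l.Prime → (l ∣ p ∨ l ∣ q) → m < l ^ 3144}

theorem Omega_bound {v n D : ℕ} (hv : v ≠ 0) (hle : v ≤ n)
    (h : ∀ p : ℕ, p.Prime → p ∣ v → n < p ^ D) : cardFactors v ≤ D := by
  rw [cardFactors_apply]
  by_contra hcon
  push Not at hcon
  have hn : 1 ≤ n := by omega
  have h1 : n ^ v.primeFactorsList.length ≤ (v.primeFactorsList.map (fun p => p ^ D)).prod := by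
    have h2 := List.pow_card_le_prod (l := v.primeFactorsList.map (fun p => p ^ D)) (n := n) (by
      intro q hq
      rw [List.mem_map] at hq
      obtain ⟨p, hp, rfl⟩ := hq
      exact (h p (Nat.prime_of_mem_primeFactorsList hp) (Nat.dvd_of_mem_primeFactorsList hp)).le)
    rwa [List.length_map] at h2
  have h3 : (v.primeFactorsList.map (fun p => p ^ D)).prod = v ^ D := by
    have h4 := (List.prod_hom v.primeFactorsList (powMonoidHom D : ℕ →* ℕ))
    rw [Nat.prod_primeFactorsList hv] at h4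
    exact h4
  rw [h3] at h1
  have h5 : v ^ D ≤ n ^ D := Nat.pow_le_pow_left hle _
  have h6 : n ^ (D + 1) ≤ n ^ v.primeFactorsList.length := Nat.pow_le_pow_right hn hcon
  rcases Nat.lt_or_ge 1 n with h7 | h7
  · have h8 : n ^ D < n ^ (D + 1) := Nat.pow_lt_pow_right h7 (Nat.lt_succ_self _)
    omega
  · have h9 : v = 1 := by omega
    rw [h9] at hcon
    simp at hcon

theorem not_square {m r q : ℕ} (hm : m % 2 = 1) (h : r ^ 2 = q + 2 * m) : ¬ IsSquare q := by
  rintro ⟨t, ht⟩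
  have h1 : r ^ 2 = t ^ 2 + 2 * m := by rw [h, ht, sq]
  have h2 : (r ^ 2) % 4 = (t ^ 2 + 2 * m) % 4 := by rw [h1]
  have h3 : (2 * m) % 4 = 2 := by omega
  have h4 : r ^ 2 % 4 = 0 ∨ r ^ 2 % 4 = 1 := by
    rcases Nat.even_or_odd' r with ⟨k, rfl | rfl⟩
    · left
      have : (2 * k) ^ 2 = 4 * (k ^ 2) := by ring
      omega
    · right
      have : (2 * k + 1) ^ 2 = 4 * (k ^ 2 + k) + 1 := by ring
      omega
  have h5 : t ^ 2 % 4 = 0 ∨ t ^ 2 % 4 = 1 := by
    rcases Nat.even_or_odd' t with ⟨k, rfl | rfl⟩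
    · left
      have : (2 * k) ^ 2 = 4 * (k ^ 2) := by ring
      omega
    · right
      have : (2 * k + 1) ^ 2 = 4 * (k ^ 2 + k) + 1 := by ring
      omega
  omega

/-- For every sufficiently large odd `m` more than `m ^ (1 / 5)` positive integers `q` have the
properties in `R m`; for each of them `p = m - 2 q` and `q` have at most `3144` prime factors (with
multiplicity), and the Jacobi symbol (Legendre symbol) `(q / l)` is `1` for every prime `l ∣ m`. -/
theorem result : ∃ m0 : ℕ, ∀ m : ℕ, m0 ≤ m → Odd m →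
    m < (R m).ncard ^ 5 ∧
    ∀ q ∈ R m, cardFactors q ≤ 3144 ∧ cardFactors (m - 2 * q) ≤ 3144 ∧
      ∀ l : ℕ, l.Prime → l ∣ m → jacobiSym (q : ℤ) l = 1 := by
  classical
  obtain ⟨m0, hmain⟩ := main
  refine ⟨m0, fun m hm hodd => ⟨?_, ?_⟩⟩
  · have hm2 : m % 2 = 1 := Nat.odd_iff.mp hodd
    obtain ⟨F, hF, hF2⟩ := hmain m hm hm2
    refine hF.trans_le (Nat.pow_le_pow_left ?_ _)
    have hfin : (R m).Finite := by
      refine Set.Finite.subset (Set.finite_Iic m) ?_
      rintro q ⟨p, h1, h2, h3, _⟩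
      rw [Set.mem_Iic]
      omega
    have hinj : Set.InjOn (fun x : ℕ => x ^ 2 - 2 * m) (F : Set ℕ) := by
      intro x hx y hy hxy
      have h1 := (hF2 x (Finset.mem_coe.mp hx)).1
      have h2 := (hF2 y (Finset.mem_coe.mp hy)).1
      have hxy' : x ^ 2 - 2 * m = y ^ 2 - 2 * m := hxy
      have h3 : x ^ 2 = y ^ 2 := by omega
      exact Nat.pow_left_injective (show (2 : ℕ) ≠ 0 by norm_num) h3
    rw [← Finset.card_image_of_injOn hinj, ← Set.ncard_coe_finset]
    refine Set.ncard_le_ncard ?_ hfin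
    intro q hq
    rw [Finset.mem_coe, Finset.mem_image] at hq
    obtain ⟨x, hx, rfl⟩ := hq
    obtain ⟨h1, h2, h3, h4⟩ := hF2 x hx
    have hq0 : x ^ 2 = (x ^ 2 - 2 * m) + 2 * m := by omega
    have hGG : GG m x = ((x ^ 2 - 2 * m : ℕ) : ℤ) * ((5 * m - 2 * x ^ 2 : ℕ) : ℤ) := by
      unfold GG
      rw [Nat.cast_sub h1.le, Nat.cast_sub h2.le]
      push_cast
      ring
    refine ⟨5 * m - 2 * x ^ 2, by omega, by omega, by omega, ?_, ⟨x, ?_⟩, not_square hm2 hq0, ?_⟩
    · -- coprime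
      have h5 : Nat.Coprime (x ^ 2) m := Nat.Coprime.pow_left 2 h3
      rw [hq0] at h5
      have h6 : Nat.Coprime (x ^ 2 - 2 * m + 2 * m) m ↔ Nat.Coprime (x ^ 2 - 2 * m) m := by
        rw [mul_comm 2 m]
        exact Nat.coprime_add_mul_left_left _ _ _
      exact h6.mp h5
    · have h7 : (x ^ 2 - 2 * m) + 2 * m ≡ (x ^ 2 - 2 * m) + 0 [MOD m] :=
        (Nat.ModEq.rfl).add ((Nat.modEq_zero_iff_dvd).mpr (Dvd.intro_left _ rfl))
      rw [← hq0] at h7
      exact h7
    · intro l hl hor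
      apply h4 l hl
      rw [hGG]
      rcases hor with h5 | h5
      · exact Dvd.dvd.mul_left (Int.natCast_dvd_natCast.mpr h5) _
      · exact Dvd.dvd.mul_right (Int.natCast_dvd_natCast.mpr h5) _
  · rintro q ⟨p, h1, h2, h3, h4, ⟨r, hr⟩, h6, h7⟩
    have hp : m - 2 * q = p := by omega
    refine ⟨?_, ?_, ?_⟩
    · exact Omega_bound (by omega) (show q ≤ m by omega) (fun l hl hd => h7 l hl (Or.inr hd))
    · rw [hp]
      exact Omega_bound (by omega) (show p ≤ m by omega) (fun l hl hd => h7 l hl (Or.inl hd))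
    · intro l hl hlm
      have h8 : (r : ℤ) ^ 2 ≡ q [ZMOD l] := by
        have h9 := (Int.natCast_modEq_iff).mpr (hr.of_dvd hlm)
        push_cast at h9
        exact h9
      have h10 : jacobiSym (q : ℤ) l = jacobiSym ((r : ℤ) ^ 2) l := jacobiSym.mod_left' h8.symm
      rw [h10]
      apply jacobiSym.sq_one'
      rw [← Int.isCoprime_iff_gcd_eq_one, Nat.isCoprime_iff_coprime]
      rw [Nat.coprime_comm, hl.coprime_iff_not_dvd]
      intro hlr
      have h11 : (l : ℤ) ∣ q := by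
        have h12 : (l : ℤ) ∣ (r : ℤ) ^ 2 :=
          Dvd.dvd.pow (Int.natCast_dvd_natCast.mpr hlr) (by norm_num)
        exact (h8.dvd_iff).mp h12
      have h13 : l ∣ q := Int.natCast_dvd_natCast.mp h11
      exact hl.not_dvd_one (by
        have h14 := Nat.dvd_gcd h13 hlm
        rwa [Nat.coprime_iff_gcd_eq_one.mp h4] at h14)

end Pool.Agent.Results.MP_59d845_nt.AlmostPrimes
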